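import Pool.Agent.H22.GS.Targets
import Pool.Agent.H40.ES.BK

/-!
# Theorem (G), section 1 (MP_c59857_nt): row BKt
-/

set_option autoImplicit false

namespace Pool.Agent.H28.GS1

open Finset Pool.Agent.H18.MR Pool.Agent.H93.DE Pool.Agent.H6.N4D Pool.Agent.H93
open Pool.Agent.H93.ES Pool.Agent.H40.ES Pool.Agent.H22.GS

theorem pf_BKt (hC : T_CYt) (hW : T_WIN) (hQ : T_QSU) : T_BKt := by
  intro th hth hth1
  obtain ⟨C, w₀, hC0, hC⟩ := hC th hth hth1
  obtain ⟨W, hW0, hQ⟩ := hQ
  refine ⟨C + 9 * W, w₀, by positivity, ?_⟩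
  intro N K i _ lam w hi hl hw0 hw hN
  have hNpos : 0 < N := NeZero.pos N
  have hN0 : (0 : ℝ) < N := by exact_mod_cast hNpos
  have hiN : 1 ≤ i * N := Nat.mul_pos hi hNpos
  obtain ⟨hA, hB⟩ := hC N K (blk lam N i) w hw0 hw hN
  set Q : ℝ := ent (unif N) (fun n => wd (blk lam N i) (2 ^ (w 0 / 400)) n) / 2 ^ (w 0 / 400) +
    Real.log (w 0) / w 0 with hQd
  -- the error of one level
  have herr : ∀ F : ℕ → ℕ → ℝ, ∀ G : ℕ → ZMod N → ℝ,
      (∀ j < K, ∀ k < N, F j k ≤ 9 * W) → (∀ j < K, ∀ n, 0 ≤ G j n) →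
      (∀ j < K, ∀ k, k + 1 + 2 ^ w j ≤ N → F j k ≤ G j ((k + 1 : ℕ) : ZMod N)) →
      ∑ j ∈ range K, avZ (G j) ≤ C * Q →
      ∑ j ∈ range K, (∑ k ∈ range N, F j k) / (N : ℝ) ≤
        (C + 9 * W) * (Q + (∑ j ∈ range K, (2 : ℝ) ^ w j) / (N : ℝ)) := by
    intro F G h1 h2 h3 h4
    have h5 : ∑ j ∈ range K, (∑ k ∈ range N, F j k) / (N : ℝ) ≤
        ∑ j ∈ range K, (avZ (G j) + 9 * W * ((2 ^ w j : ℕ) : ℝ) / N) := by
      refine sum_le_sum fun j hj => ?_
      have hj' := mem_range.1 hj
      exact blk_sum (2 ^ w j) (F j) (G j) (9 * W) (by positivity) (h1 j hj') (h2 j hj')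
        (h3 j hj') Nat.one_le_two_pow
    rw [sum_add_distrib] at h5
    have h6 : ∑ j ∈ range K, 9 * W * ((2 ^ w j : ℕ) : ℝ) / N =
        9 * W * ((∑ j ∈ range K, (2 : ℝ) ^ w j) / (N : ℝ)) := by
      rw [sum_div, mul_sum]
      refine sum_congr rfl fun j _ => ?_
      push_cast
      ring
    rw [h6] at h5
    have h7 : 0 ≤ (∑ j ∈ range K, (2 : ℝ) ^ w j) / (N : ℝ) := by positivity
    have h8 : 0 ≤ Q := by
      have h9 : 0 ≤ ∑ j ∈ range K, avZ (G j) := by
        refine sum_nonneg fun j hj => ?_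
        unfold avZ
        have : 0 ≤ ∑ n, G j n := sum_nonneg fun n _ => h2 j (mem_range.1 hj) n
        positivity
      have h10 : 0 ≤ C * Q := h9.trans h4
      nlinarith
    nlinarith [mul_nonneg hC0.le h7, mul_nonneg hW0.le h8]
  constructor
  · intro α g hg
    refine (herr (fun j k => ∑ q ∈ EB.QQ (w j), 1 / (q : ℝ) *
      EB.zz lam q (2 ^ w j) (i * N + k) (α j (i * N + k)) (g j (i * N + k) q) ^ 2)
      (fun j n => ∑ q ∈ EB.QQ (w j), 1 / (q : ℝ) *
      ‖wm (ltr (blk lam N i) n) (w j) (fun t => kA q n.val (α j (i * N + n.val - 1)) t *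
        g j (i * N + n.val - 1) q (i * N + n.val + t))‖ ^ 2) ?_ ?_ ?_ ?_)
    · intro j hj k _
      have h1 := tests_le hl hQ (w j) (i * N + k) (fun _ => 1) (fun _ => α j (i * N + k))
        (g j (i * N + k)) (fun q _ => ⟨zero_le_one, le_rfl⟩) (fun q hq => (hg j hj _ q hq).bd)
      simpa using h1
    · intro j _ n
      exact sum_nonneg fun q _ => by positivity
    · intro j hj k hk
      refine sum_le_sum fun q hq => ?_
      obtain ⟨h1, -, h3⟩ := QQ_facts hq
      have hv : ((k + 1 : ℕ) : ZMod N).val = k + 1 := ZMod.val_natCast_of_lt (by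
        have : 1 ≤ 2 ^ w j := Nat.one_le_two_pow
        omega)
      have h4 := (hW N (w j) i q lam (α j (i * N + k)) (g j (i * N + k) q)
        ((k + 1 : ℕ) : ZMod N) hi hl h1 (h3 N (hN j hj)) (by rw [hv]; exact hk)).1
      rw [hv] at h4
      have h5 : i * N + (k + 1) - 1 = i * N + k := by omega
      rw [h5] at h4
      simp only [hv, h5]
      rw [h4]
    · exact hA (fun j n => α j (i * N + n.val - 1))
        (fun j n q t => g j (i * N + n.val - 1) q (i * N + n.val + t)) (by
        intro j hj n q hq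
        obtain ⟨h1, h2⟩ := hg j hj (i * N + n.val - 1) q hq
        constructor
        · intro t ht
          apply h1
          rw [mem_Ioc]
          omega
        · refine le_trans (le_of_eq ?_) h2
          have h3 : Ioo (i * N + n.val - 1) (i * N + n.val - 1 + 2 ^ w j) =
              Ico (i * N + n.val) (i * N + n.val - 1 + 2 ^ w j) := by
            ext m
            rw [mem_Ioo, mem_Ico]
            omega
          rw [h3, Finset.sum_Ico_eq_sum_range]
          have h4 : i * N + n.val - 1 + 2 ^ w j - (i * N + n.val) = 2 ^ w j - 1 := by omega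
          rw [h4]
          refine sum_congr rfl fun t _ => ?_
          rw [← add_assoc])
  · intro β
    obtain ⟨α', hα1, hα2⟩ := hB (fun j n q => β j (i * N + n.val - 1) q)
    classical
    refine ⟨fun j n q => if j < K ∧ i * N ≤ n ∧ (n - i * N) + 1 + 2 ^ w j ≤ N then
      α' j (((n - i * N) + 1 : ℕ) : ZMod N) q else β j n q, ?_, ?_⟩
    · intro j n q hq
      by_cases h : j < K ∧ i * N ≤ n ∧ (n - i * N) + 1 + 2 ^ w j ≤ N
      · obtain ⟨b, hb⟩ := hα1 j h.1 (((n - i * N) + 1 : ℕ) : ZMod N) q hq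
        refine ⟨b, ?_⟩
        simp only []
        rw [if_pos h, hb]
        have hv : (((n - i * N) + 1 : ℕ) : ZMod N).val = (n - i * N) + 1 :=
          ZMod.val_natCast_of_lt (by
            have : 1 ≤ 2 ^ w j := Nat.one_le_two_pow
            omega)
        have h5 : i * N + ((n - i * N) + 1) - 1 = n := by omega
        simp only [hv, h5]
      · refine ⟨0, ?_⟩
        simp only []
        rw [if_neg h]
        simp
    · refine herr (fun j k => ∑ q ∈ EB.QQ (w j), 1 / (q : ℝ) *
        (EB.ind (th ≤ ‖EB.crq lam q (2 ^ w j) (i * N + k) (β j (i * N + k) q)‖) *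
          EB.zz lam q (2 ^ w j) (i * N + k)
            (if j < K ∧ i * N ≤ i * N + k ∧ (i * N + k - i * N) + 1 + 2 ^ w j ≤ N then
              α' j (((i * N + k - i * N) + 1 : ℕ) : ZMod N) q else β j (i * N + k) q)
            (fun _ => 1) ^ 2))
        (fun j n => ∑ q ∈ EB.QQ (w j), 1 / (q : ℝ) *
        (EB.ind (th ≤ ‖wm (ltr (blk lam N i) n) (w j)
            (kB q n.val (β j (i * N + n.val - 1) q))‖) *
          ‖wm (ltr (blk lam N i) n) (w j) (kA q n.val (α' j n q))‖ ^ 2)) ?_ ?_ ?_ hα2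
      · intro j hj k _
        refine tests_le hl hQ (w j) (i * N + k) (fun q => EB.ind (th ≤
          ‖EB.crq lam q (2 ^ w j) (i * N + k) (β j (i * N + k) q)‖)) _ (fun _ _ => 1) ?_ ?_
        · intro q _
          unfold EB.ind
          split_ifs <;> norm_num
        · intro q _ m _
          simp
      · intro j _ n
        refine sum_nonneg fun q _ => ?_
        have : 0 ≤ EB.ind (th ≤ ‖wm (ltr (blk lam N i) n) (w j)
            (kB q n.val (β j (i * N + n.val - 1) q))‖) := by
          unfold EB.ind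
          split_ifs <;> norm_num
        positivity
      · intro j hj k hk
        refine sum_le_sum fun q hq => ?_
        obtain ⟨h1, -, h3⟩ := QQ_facts hq
        have hv : ((k + 1 : ℕ) : ZMod N).val = k + 1 := ZMod.val_natCast_of_lt (by
          have : 1 ≤ 2 ^ w j := Nat.one_le_two_pow
          omega)
        have h5 : i * N + (k + 1) - 1 = i * N + k := by omega
        have h6 : i * N + k - i * N = k := by omega
        have h7 : j < K ∧ i * N ≤ i * N + k ∧ k + 1 + 2 ^ w j ≤ N := ⟨hj, by omega, hk⟩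
        have h4 := (hW N (w j) i q lam (α' j ((k + 1 : ℕ) : ZMod N) q) (fun _ => 1)
          ((k + 1 : ℕ) : ZMod N) hi hl h1 (h3 N (hN j hj)) (by rw [hv]; exact hk)).1
        have h8 := (hW N (w j) i q lam (β j (i * N + k) q) (fun _ => 1)
          ((k + 1 : ℕ) : ZMod N) hi hl h1 (h3 N (hN j hj)) (by rw [hv]; exact hk)).2
        rw [hv, h5] at h4 h8
        simp only [hv, h5, h6]
        rw [if_pos h7, h4, h8]
        simp only [mul_one]
        exact le_rfl

end Pool.Agent.H28.GS1
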