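import Pool.Agent.H22.GS.Targets
import Pool.Agent.H25.ES.CHA

/-!
# Theorem (G), section 1 (MP_c59857_nt): row CHAt
-/

set_option autoImplicit false

open Finset Pool.Agent.H18.MR Pool.Agent.H93.DE Pool.Agent.H6.N4D Pool.Agent.H93
  Pool.Agent.H93.ES Pool.Agent.H25.ES Pool.Agent.H22.GS

namespace Pool.Agent.H28.GS1.CHA

theorem rhoT_le {c w : ℕ} (hw : 10 ^ 5 ≤ w) (hc : 8 * c ≤ w) : rhoT c w ≤ w / 4 := by
  have h1 : w < 2 ^ (w / 8) := by
    have h2 : w / 8 - 4 < 2 ^ (w / 8 - 4) := Nat.lt_two_pow_self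
    have h3 : 2 ^ (w / 8) = 16 * 2 ^ (w / 8 - 4) := by
      have h4 : w / 8 = 4 + (w / 8 - 4) := by omega
      conv_lhs => rw [h4, pow_add]
      norm_num
    rw [h3]
    omega
  have h5 : Nat.log 2 w < w / 8 := Nat.log_lt_of_lt_pow (by omega) h1
  unfold rhoT
  omega

/-- one level -/
theorem lev (hS : T_STA) (hL : T_LVD) (hE : T_END) (c N w : ℕ) [NeZero N] (x : ZMod N → Bool)
    (hw : 10 ^ 5 ≤ w) (hcw : 8 * c ≤ w) (hN : primorial (2 ^ (w / 200)) ∣ N) :
    infT c x w ≤ hc x (2 ^ (w / 400)) (primorial (2 ^ (w / 400))) / 2 ^ (w / 400) -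
      hc x (2 ^ w) (primorial (2 ^ (w / 200))) / 2 ^ w + (1 / 2) ^ (w / 2) := by
  have hρ := rhoT_le hw hcw
  have hab : w / 400 ≤ w / 200 := by omega
  obtain ⟨a, ha⟩ : ∃ a, a = w / 400 := ⟨_, rfl⟩
  obtain ⟨b, hb⟩ : ∃ b, b = w / 200 := ⟨_, rfl⟩
  obtain ⟨r, hr⟩ : ∃ r, r = rhoT c w := ⟨_, rfl⟩
  have hNa : primorial (2 ^ a) ∣ N := by
    refine (Pool.Agent.H81.DE.prim_dvd (Nat.pow_le_pow_right (by norm_num) ?_)).trans hN
    omega
  rw [← hb] at hN
  rw [← ha, ← hb]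
  rw [← hr] at hρ
  obtain ⟨A, hA⟩ : ∃ A, A = hc x (2 ^ a) (primorial (2 ^ a)) / 2 ^ a := ⟨_, rfl⟩
  obtain ⟨B, hB⟩ : ∃ B, B = avE (2 ^ r) (2 ^ (w - r))
      (fun e => hc (tup x (pos e)) (2 ^ b) (primorial (2 ^ b))) := ⟨_, rfl⟩
  have hR : (0 : ℝ) < 2 ^ r := by positivity
  -- the upper bound by the two entropies
  have h1 : infT c x w ≤ A - B / (2 ^ r * 2 ^ b) := by
    have e1 : infT c x w = avE (2 ^ r) (2 ^ (w - r)) (fun e =>
        ∑ m ∈ Ico a b, info (tup x (pos e)) (2 ^ m) (primorial (2 ^ m)) (pr m) / 2 ^ m) /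
          2 ^ r := by
      rw [avE_sum, Finset.sum_div]
      unfold infT
      rw [← ha, ← hb, ← hr]
      refine Finset.sum_congr rfl fun m _ => ?_
      rw [avE_div, div_div, mul_comm ((2 : ℝ) ^ r)]
    have e2 : ∀ e : Fin (2 ^ r) → Fin (2 ^ (w - r)),
        ∑ m ∈ Ico a b, info (tup x (pos e)) (2 ^ m) (primorial (2 ^ m)) (pr m) / 2 ^ m ≤
          2 ^ r * A - hc (tup x (pos e)) (2 ^ b) (primorial (2 ^ b)) / 2 ^ b := by
      intro e
      have h2 := hL (Fin (2 ^ r) → Bool) N a b (tup x (pos e)) (by omega) hN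
      have h3 := hS N (2 ^ r) (2 ^ a) (primorial (2 ^ a)) x (pos e) (primorial_pos _) hNa
      have h4 : hc (tup x (pos e)) (2 ^ a) (primorial (2 ^ a)) / 2 ^ a ≤ 2 ^ r * A := by
        rw [hA, ← mul_div_assoc]
        refine div_le_div_of_nonneg_right ?_ (by positivity)
        push_cast at h3
        exact h3
      linarith
    rw [e1]
    have h5 := avE_mono e2
    rw [avE_sub_const (by positivity), avE_div, ← hB] at h5
    calc _ ≤ (2 ^ r * A - B / 2 ^ b) / 2 ^ r := div_le_div_of_nonneg_right h5 hR.le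
      _ = A - B / (2 ^ r * 2 ^ b) := by
          field_simp
  -- the lower bound for the samples
  have h6 : hc x (2 ^ w) (primorial (2 ^ b)) / 2 ^ w ≤ B / (2 ^ r * 2 ^ b) +
      (1 / 2) ^ (w / 2) := by
    have h7 := hE N (2 ^ r) (2 ^ (w - r)) (2 ^ b) (primorial (2 ^ b)) x (primorial_pos _) hN
      (by positivity) (by positivity) (Nat.pow_dvd_pow 2 (by omega))
    have e3 : 2 ^ r * 2 ^ (w - r) = 2 ^ w := by
      rw [← pow_add]
      congr 1
      omega
    rw [e3, ← hB] at h7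
    push_cast at h7
    have e4 : (2 : ℝ) ^ w = 2 ^ r * 2 ^ (w - r) := by
      rw [← pow_add]
      congr 1
      omega
    have e5 : (2 : ℝ) ^ (w - r) = 2 ^ b * 2 ^ (w - r - b) := by
      rw [← pow_add]
      congr 1
      omega
    have h8 : (2 : ℝ) ^ b / 2 ^ (w - r) * Real.log 2 ≤ (1 / 2) ^ (w / 2) := by
      rw [e5, div_mul_cancel_left₀ (by positivity)]
      have h9 : ((2 : ℝ) ^ (w - r - b))⁻¹ = (1 / 2) ^ (w - r - b) := by
        rw [one_div, inv_pow]
      rw [h9]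
      have h10 : (1 / 2 : ℝ) ^ (w - r - b) ≤ (1 / 2) ^ (w / 2) :=
        pow_le_pow_of_le_one (by norm_num) (by norm_num) (by omega)
      have h11 : Real.log 2 ≤ 1 := by
        have := Real.log_two_lt_d9
        linarith
      have h12 : (0 : ℝ) ≤ (1 / 2) ^ (w - r - b) := by positivity
      nlinarith
    have h13 : hc x (2 ^ w) (primorial (2 ^ b)) / 2 ^ w ≤
        (2 ^ (w - r) / 2 ^ b * B + 2 ^ r * 2 ^ b * Real.log 2) / 2 ^ w :=
      div_le_div_of_nonneg_right h7 (by positivity)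
    refine h13.trans ?_
    have e6 : (2 ^ (w - r) / 2 ^ b * B + 2 ^ r * 2 ^ b * Real.log 2) / 2 ^ w =
        B / (2 ^ r * 2 ^ b) + 2 ^ b / 2 ^ (w - r) * Real.log 2 := by
      rw [e4]
      field_simp
    rw [e6]
    linarith
  linarith

theorem pf_CHAt (hU : T_UNI) (hS : T_STA) (hM : T_MNT) (hL : T_LVD) (hE : T_END) :
    T_CHAt := by
  intro c _
  refine ⟨10 ^ 5 + 8 * c, ?_⟩
  intro N K _ x w h0 hw hN
  have h0 : 10 ^ 5 ≤ w 0 ∧ 8 * c ≤ w 0 := by constructor <;> omega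
  have hent : 0 ≤ ent (unif N) (fun n => wd x (2 ^ (w 0 / 400)) n) / 2 ^ (w 0 / 400) :=
    div_nonneg (ent_nonneg _ _) (by positivity)
  have h1 : ∀ j, j < K → 10 ^ 5 ≤ w j ∧ 8 * c ≤ w j := by
    intro j
    induction j with
    | zero => intro _; exact h0
    | succ j ih =>
      intro hj
      have h2 := ih (by omega)
      have h3 := hw j hj
      constructor <;> omega
  have hε := eps_sum K w h0.1 hw
  obtain ⟨H, hH⟩ : ∃ H : ℕ → ℝ, ∀ j, H j =
      hc x (2 ^ (w j / 400)) (primorial (2 ^ (w j / 400))) / 2 ^ (w j / 400) :=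
    ⟨fun j => hc x (2 ^ (w j / 400)) (primorial (2 ^ (w j / 400))) / 2 ^ (w j / 400),
      fun _ => rfl⟩
  have hNa : ∀ j, j < K → primorial (2 ^ (w j / 400)) ∣ N := by
    intro j hj
    refine (Pool.Agent.H81.DE.prim_dvd (Nat.pow_le_pow_right (by norm_num) ?_)).trans (hN j hj)
    omega
  have hlev : ∀ j, j < K → infT c x (w j) ≤ H j -
      hc x (2 ^ w j) (primorial (2 ^ (w j / 200))) / 2 ^ w j + (1 / 2) ^ (w j / 2) := by
    intro j hj
    rw [hH]
    exact lev hS hL hE c N (w j) x (h1 j hj).1 (h1 j hj).2 (hN j hj)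
  have hnext : ∀ j, j + 1 < K → H (j + 1) ≤
      hc x (2 ^ w j) (primorial (2 ^ (w j / 200))) / 2 ^ w j := by
    intro j hj
    have h2 := hw j hj
    have h3 : w j ≤ w (j + 1) / 400 := by omega
    have h4 := hM N (2 ^ (w (j + 1) / 400 - w j)) (2 ^ w j) (primorial (2 ^ (w j / 200)))
      (primorial (2 ^ (w (j + 1) / 400))) x (primorial_pos _)
      (Pool.Agent.H81.DE.prim_dvd (Nat.pow_le_pow_right (by norm_num) (by omega)))
      (hNa (j + 1) hj)
    have e1 : 2 ^ (w (j + 1) / 400 - w j) * 2 ^ w j = 2 ^ (w (j + 1) / 400) := by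
      rw [← pow_add]
      congr 1
      omega
    have e2 : (2 : ℝ) ^ (w (j + 1) / 400) = 2 ^ (w (j + 1) / 400 - w j) * 2 ^ w j := by
      rw [← pow_add]
      congr 1
      omega
    rw [e1] at h4
    push_cast at h4
    rw [hH, e2, div_le_div_iff₀ (by positivity) (by positivity)]
    have h5 : (0 : ℝ) < 2 ^ w j := by positivity
    nlinarith
  have hsum : ∀ n, n < K → ∑ j ∈ range n, infT c x (w j) ≤
      H 0 - H n + ∑ j ∈ range n, (1 / 2 : ℝ) ^ (w j / 2) := by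
    intro n
    induction n with
    | zero => intro _; simp
    | succ n ih =>
      intro hn
      rw [Finset.sum_range_succ, Finset.sum_range_succ]
      have h2 := ih (by omega)
      have h3 := hlev n (by omega)
      have h4 := hnext n hn
      linarith
  rcases Nat.eq_zero_or_pos K with hK | hK
  · subst hK
    rw [Finset.range_zero, Finset.sum_empty]
    have : (0 : ℝ) ≤ (1 / 2) ^ (w 0 / 4) := by positivity
    linarith
  · obtain ⟨n, rfl⟩ : ∃ n, K = n + 1 := ⟨K - 1, by omega⟩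
    have h2 := hsum n (by omega)
    have h3 := hlev n (by omega)
    have h4 : 0 ≤ hc x (2 ^ w n) (primorial (2 ^ (w n / 200))) / 2 ^ w n :=
      div_nonneg (hc_nonneg' hU N _ _ x (primorial_pos _) (hN n (by omega))) (by positivity)
    have h5 : H 0 ≤ ent (unif N) (fun n => wd x (2 ^ (w 0 / 400)) n) / 2 ^ (w 0 / 400) := by
      rw [hH]
      exact div_le_div_of_nonneg_right
        (hc_le_ent hU N _ _ x (primorial_pos _) (hNa 0 (by omega))) (by positivity)
    rw [Finset.sum_range_succ] at hε ⊢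
    linarith

end Pool.Agent.H28.GS1.CHA

/-- CHAt -/
theorem Pool.Agent.H28.GS1.pf_CHAt (hU : Pool.Agent.H93.DE.T_UNI) (hS : Pool.Agent.H93.ES.T_STA)
    (hM : Pool.Agent.H93.ES.T_MNT) (hL : Pool.Agent.H93.ES.T_LVD) (hE : Pool.Agent.H93.ES.T_END) :
    Pool.Agent.H22.GS.T_CHAt :=
  Pool.Agent.H28.GS1.CHA.pf_CHAt hU hS hM hL hE
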