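import Pool.Agent.H28.GS1.MEAt
import Pool.Agent.H28.GS1.LVAt
import Pool.Agent.H28.GS1.CHAt
import Pool.Agent.H28.GS1.BKt
import Pool.Agent.H28.GS1.EBT

/-!
# Theorem (G), section 1: the rows of helper28 together
-/
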