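import Pool.Agent.H22.GS.Targets
import Pool.Agent.H95.ES.MEA
import Pool.Agent.H1.ES.ABL
import Pool.Agent.H10.ES.EXA

/-!
# Theorem (G), section 1 (MP_c59857_nt): rows MEAt, ABLt, EXAt
-/

set_option autoImplicit false

namespace Pool.Agent.H28.GS1

open Finset Pool.Agent.H18.MR Pool.Agent.H93.DE Pool.Agent.H6.N4D Pool.Agent.H93 Pool.Agent.H93.ES
  Pool.Agent.H22.GS

lemma log_le_quarter (w : ℕ) (hw : 64 ≤ w) : Nat.log 2 w ≤ w / 4 := by
  have h1 : w < 2 ^ (w / 4 + 1) := by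
    obtain ⟨u, hu⟩ : ∃ u, w / 4 = u := ⟨_, rfl⟩
    rw [hu]
    have h3 : 16 ≤ u := by omega
    have h4 : w < 4 * u + 4 := by omega
    have h5 : ∀ v : ℕ, 4 * (16 + v) + 4 < 2 ^ (16 + v + 1) := by
      intro v
      induction v with
      | zero => norm_num
      | succ v ih =>
        have : 2 ^ (16 + (v + 1) + 1) = 2 * 2 ^ (16 + v + 1) := by ring
        omega
    have h6 := h5 (u - 16)
    have h7 : 16 + (u - 16) = u := by omega
    rw [h7] at h6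
    omega
  have h2 : Nat.log 2 w < w / 4 + 1 := Nat.log_lt_of_lt_pow (by omega) h1
  omega

lemma rhoT_le (c w : ℕ) (hw : 64 ≤ w) (hc : 4 * c ≤ w) : rhoT c w ≤ w / 2 := by
  have h := log_le_quarter w hw
  unfold rhoT
  omega

theorem pf_MEAt : T_MEAt := by
  intro c
  refine ⟨64 + 4 * c, ?_⟩
  intro w m k f b hw _ hk
  have hrho : rhoT c w ≤ w := (rhoT_le c w (by omega) (by omega)).trans (Nat.div_le_self w 2)
  have h := Pool.Agent.H95.ES.mea_gen (2 ^ rhoT c w) (2 ^ (w - rhoT c w)) w m k f b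
    (by rw [← pow_add, Nat.add_sub_cancel' hrho]) (Nat.pow_pos (by norm_num))
    (Nat.pow_pos (by norm_num)) hk
  have e : ((2 ^ (w - rhoT c w) : ℕ) : ℂ) = (2 : ℂ) ^ (w - rhoT c w) := by
    rw [Nat.cast_pow, Nat.cast_ofNat]
  rw [e] at h
  exact h

theorem pf_ABLt (hM : T_MEAt) : T_ABLt := by
  intro c _
  obtain ⟨w₁, hM⟩ := hM c
  refine ⟨max (10 ^ 5) (max w₁ (4 * c + 1000)), ?_⟩
  intro w m q r₀ f α V g hw hm hq hf hV hg hgV
  have hw5 : 10 ^ 5 ≤ w := (le_max_left _ _).trans hw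
  have hw1 : w₁ ≤ w := (le_max_left _ _).trans ((le_max_right _ _).trans hw)
  have hwc : 4 * c + 1000 ≤ w := (le_max_right _ _).trans ((le_max_right _ _).trans hw)
  have hlog := log_le_quarter w (by omega)
  have hrho : rhoT c w + 70 ≤ w / 2 := by unfold rhoT; omega
  have hMw := fun k => hM w m k f (kA q r₀ α) hw1 hm
  generalize rhoT c w = ρ at *
  exact Pool.Agent.H1.ES.core w m q r₀ ρ f α V g hw5 hm hq hf hV hg hgV hrho hMw

theorem exa_R (c w : ℕ) (hc : 1 ≤ c) : 1000 * ((w : ℝ) / 10 ^ 6) ≤ ((2 ^ rhoT c w : ℕ) : ℝ) := by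
  have h1 : w < 2 ^ (Nat.log 2 w + 1) := Nat.lt_pow_succ_log_self (by norm_num) w
  have h3 : w ≤ 2 ^ rhoT c w := by
    refine h1.le.trans (Nat.pow_le_pow_right (by norm_num) ?_)
    unfold rhoT
    omega
  have h4 : (w : ℝ) ≤ ((2 ^ rhoT c w : ℕ) : ℝ) := by exact_mod_cast h3
  have h5 : (0 : ℝ) ≤ w := Nat.cast_nonneg w
  have h6 : 1000 * ((w : ℝ) / 10 ^ 6) = w / 1000 := by ring
  rw [h6]
  linarith

theorem pf_EXAt (hH : T_HFC) (hL : T_LSV) (hM : T_MEAt) (hP : T_PIL) : T_EXAt := by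
  intro cc hcc
  obtain ⟨c, m₀, hc, hoct⟩ := hP
  obtain ⟨w₁, hM⟩ := hM cc
  refine ⟨4 * (1 + 32 / c), max w₁ (100000 + 400 * (m₀ + 1)), ?_, ?_⟩
  · have : 0 < 32 / c := by positivity
    linarith
  intro w m f α hw hm1 hm2 hf
  have hw1 : w₁ ≤ w := (le_max_left _ _).trans hw
  have hw := (le_max_right _ _).trans hw
  have hmm : m₀ ≤ m := by omega
  have hmpos : 1 ≤ m := by omega
  have hmw : 4 * m + 4 ≤ w := by omega
  have hw400 : w ≤ 400 * (m + 1) := by omega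
  obtain ⟨κ, hκ⟩ : ∃ κ : ℝ, κ = (w : ℝ) / 10 ^ 6 := ⟨_, rfl⟩
  have hκ0 : 0 ≤ κ := by rw [hκ]; positivity
  have hexp := Pool.Agent.H10.ES.exa_card hc (hoct m hmm) hmpos hw400 hκ
  have hR : 1000 * κ ≤ ((2 ^ rhoT cc w : ℕ) : ℝ) := by rw [hκ]; exact exa_R cc w (by omega)
  rw [← hκ, Pool.Agent.H10.ES.exa_swap]
  have hone : ∀ k ∈ range (2 ^ rhoT cc w + 1), ∑ q ∈ oct m, (∑ r₀ ∈ range q,
      avE (2 ^ rhoT cc w) (2 ^ (w - rhoT cc w)) (fun e =>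
        Real.exp (κ * ‖smp f m (kA q r₀ α) e k‖ ^ 2))) / q ≤
      4 * (1 + 32 / c) * ((oct m).card : ℝ) := by
    intro k hk
    have hk' : k ≤ 2 ^ rhoT cc w := Nat.lt_succ_iff.1 (mem_range.1 hk)
    refine Pool.Agent.H10.ES.exa_sum hc _ (fun q r₀ => ‖(∑ t ∈ range (2 ^ w + 2 ^ m),
      ((f t * wt m (k * 2 ^ (w - rhoT cc w)) t : ℝ) : ℂ) * kA q r₀ α t) / 2 ^ w‖ ^ 2) hexp
      (fun q r => by positivity) (Pool.Agent.H10.ES.exa_lsv hL hmw f hf α) ?_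
    intro q hq r₀
    have h1 := Pool.Agent.H10.ES.exa_smp hH (Nat.one_le_two_pow (n := w - rhoT cc w))
      (Nat.one_le_two_pow (n := rhoT cc w)) hκ0 hR hq k f hf r₀ α
    have h2 := hM w m k f (kA q r₀ α) hw1 hm2 hk'
    have h4 : (((2 ^ (w - rhoT cc w) : ℕ) : ℂ)) ^ (2 ^ rhoT cc w) =
        ((2 : ℂ) ^ (w - rhoT cc w)) ^ (2 ^ rhoT cc w) := by
      rw [Nat.cast_pow, Nat.cast_ofNat]
    rw [h4, h2] at h1
    exact h1
  refine (sum_le_sum hone).trans (le_of_eq ?_)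
  rw [sum_const, card_range, nsmul_eq_mul, Nat.cast_add, Nat.cast_pow, Nat.cast_ofNat,
    Nat.cast_one]
  ring

end Pool.Agent.H28.GS1
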